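import Pool.Agent.H28.MZ.Targets

/-!
# The auxiliary function far to the right (module UR)
-/

set_option autoImplicit false

open Complex

namespace Pool.Agent.H70.PZ

open Pool.Agent.H28.MZ
open Pool.Agent.H23.GLH (PrimChar)

/-- the constant `8 ∑ n^{-3}` -/
noncomputable def KK : ℝ := ∑' n : ℕ, 8 * (1 / (n : ℝ) ^ 3)

theorem summable_KK : Summable fun n : ℕ => 8 * (1 / (n : ℝ) ^ 3) :=
  (Real.summable_one_div_nat_pow.2 (by norm_num)).mul_left 8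

theorem KK_nonneg : 0 ≤ KK := tsum_nonneg (fun n => by positivity)

/-- the size of one term -/
theorem term_le (n : ℕ) (hn : 2 ≤ n) (x y : ℝ) (hx : 3 ≤ x) (hxy : x ≤ y) :
    (n : ℝ) ^ (-y) ≤ (2 : ℝ) ^ (-x) * (8 * (1 / (n : ℝ) ^ 3)) := by
  have hn2 : (2 : ℝ) ≤ n := by exact_mod_cast hn
  have hn0 : (0 : ℝ) < n := by linarith
  have h1 : (n : ℝ) ^ (-y) ≤ (n : ℝ) ^ (-x) :=
    Real.rpow_le_rpow_of_exponent_le (by linarith) (by linarith)
  have h2 : (n : ℝ) ^ (-x) = (2 : ℝ) ^ (-x) * ((n : ℝ) / 2) ^ (-x) := by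
    rw [← Real.mul_rpow (by norm_num) (by positivity)]
    congr 1
    field_simp
  have h3 : ((n : ℝ) / 2) ^ (-x) ≤ ((n : ℝ) / 2) ^ (-3 : ℝ) :=
    Real.rpow_le_rpow_of_exponent_le (by linarith) (by linarith)
  have h4 : ((n : ℝ) / 2) ^ (-3 : ℝ) = 8 * (1 / (n : ℝ) ^ 3) := by
    rw [Real.rpow_neg (by positivity), show (3 : ℝ) = ((3 : ℕ) : ℝ) by norm_num,
      Real.rpow_natCast]
    field_simp
    norm_num
  calc (n : ℝ) ^ (-y) ≤ (n : ℝ) ^ (-x) := h1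
    _ = (2 : ℝ) ^ (-x) * ((n : ℝ) / 2) ^ (-x) := h2
    _ ≤ (2 : ℝ) ^ (-x) * (8 * (1 / (n : ℝ) ^ 3)) := by
        rw [← h4]
        exact mul_le_mul_of_nonneg_left h3 (by positivity)

theorem norm_natCast_cpow_neg (n : ℕ) (hn : 2 ≤ n) (w : ℂ) :
    ‖(n : ℂ) ^ (-w)‖ = (n : ℝ) ^ (-w.re) := by
  have hn0 : 0 < n := by omega
  rw [Complex.norm_natCast_cpow_of_pos hn0, Complex.neg_re]

theorem L_sub_one (π : PrimChar) (x : ℝ) (hx : 3 ≤ x) (w : ℂ) (hw : x ≤ w.re) :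
    ‖π.L w - 1‖ ≤ (2 : ℝ) ^ (-x) * KK := by
  have := π.q_ne
  have h1 : 1 < w.re := by linarith
  have hL : π.L w = LSeries (fun n => π.χ n) w := by
    unfold PrimChar.L
    exact DirichletCharacter.LFunction_eq_LSeries π.χ h1
  have hsum : LSeriesSummable (fun n => π.χ n) w := DirichletCharacter.LSeriesSummable_of_one_lt_re π.χ h1
  have hterm1 : LSeries.term (fun n => π.χ n) w 1 = 1 := by
    rw [LSeries.term_of_ne_zero one_ne_zero]
    simp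
  rw [hL, LSeries, hsum.tsum_eq_add_tsum_ite 1, hterm1, add_sub_cancel_left]
  have hb : ∀ n : ℕ, ‖(if n = 1 then 0 else LSeries.term (fun n => π.χ n) w n)‖ ≤
      (2 : ℝ) ^ (-x) * (8 * (1 / (n : ℝ) ^ 3)) := by
    intro n
    split_ifs with h
    · rw [norm_zero]; positivity
    · rcases Nat.eq_zero_or_pos n with rfl | hpos
      · rw [LSeries.term_zero, norm_zero]; positivity
      · have hn2 : 2 ≤ n := by omega
        rw [LSeries.term_of_ne_zero (by omega), norm_div]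
        have h2 : ‖π.χ (n : ZMod π.q)‖ ≤ 1 := DirichletCharacter.norm_le_one π.χ _
        have h3 := norm_natCast_cpow_neg n hn2 w
        rw [Complex.cpow_neg, norm_inv] at h3
        calc ‖π.χ (n : ZMod π.q)‖ / ‖(n : ℂ) ^ w‖ = ‖π.χ (n : ZMod π.q)‖ * ‖(n : ℂ) ^ w‖⁻¹ :=
              div_eq_mul_inv _ _
          _ ≤ 1 * ‖(n : ℂ) ^ w‖⁻¹ := mul_le_mul_of_nonneg_right h2 (by positivity)
          _ = (n : ℝ) ^ (-w.re) := by rw [one_mul, h3]
          _ ≤ _ := term_le n hn2 x _ hx hw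
  refine (tsum_of_norm_bounded ?_ hb)
  exact (summable_KK.hasSum.mul_left _)

theorem B_sub_one (π : PrimChar) (b : ℕ → ℝ) (hb : Mol π.q b) (Y : ℕ) (hY : 1 ≤ Y) (x : ℝ)
    (hx : 3 ≤ x) (w : ℂ) (hw : x ≤ w.re) : ‖Bf π b Y w - 1‖ ≤ (2 : ℝ) ^ (-x) * KK := by
  have := π.q_ne
  unfold Bf
  have h1 : (1 : ℕ) ∈ Finset.Icc 1 Y := Finset.mem_Icc.2 ⟨le_rfl, hY⟩
  rw [← Finset.add_sum_erase _ _ h1]
  have hone : (b 1 : ℂ) * co π 1 * ((1 : ℕ) : ℂ) ^ (-w) = 1 := by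
    rw [hb.one]
    simp [co]
  rw [hone, add_sub_cancel_left]
  calc ‖∑ h ∈ (Finset.Icc 1 Y).erase 1, (b h : ℂ) * co π h * (h : ℂ) ^ (-w)‖
      ≤ ∑ h ∈ (Finset.Icc 1 Y).erase 1, ‖(b h : ℂ) * co π h * (h : ℂ) ^ (-w)‖ :=
        norm_sum_le _ _
    _ ≤ ∑ h ∈ (Finset.Icc 1 Y).erase 1, (2 : ℝ) ^ (-x) * (8 * (1 / (h : ℝ) ^ 3)) := by
        apply Finset.sum_le_sum
        intro h hh
        rw [Finset.mem_erase, Finset.mem_Icc] at hh
        have hh2 : 2 ≤ h := by omega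
        rw [norm_mul, norm_mul, norm_natCast_cpow_neg h hh2, Complex.norm_real, Real.norm_eq_abs]
        have h2 : ‖co π h‖ ≤ 1 := by
          unfold co
          split_ifs
          · simp
          · exact DirichletCharacter.norm_le_one π.χ _
        calc |b h| * ‖co π h‖ * (h : ℝ) ^ (-w.re) ≤ 1 * 1 * (h : ℝ) ^ (-w.re) := by
              apply mul_le_mul_of_nonneg_right _ (by positivity)
              exact mul_le_mul (hb.le h) h2 (norm_nonneg _) zero_le_one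
          _ = (h : ℝ) ^ (-w.re) := by ring
          _ ≤ _ := term_le h hh2 x _ hx hw
    _ = (2 : ℝ) ^ (-x) * ∑ h ∈ (Finset.Icc 1 Y).erase 1, (8 * (1 / (h : ℝ) ^ 3)) := by
        rw [Finset.mul_sum]
    _ ≤ (2 : ℝ) ^ (-x) * KK := by
        apply mul_le_mul_of_nonneg_left _ (by positivity)
        exact summable_KK.sum_le_tsum _ (fun n _ => by positivity)

theorem LB_sub_one (L B : ℂ) (t K : ℝ) (ht : 0 ≤ t) (ht1 : t ≤ 1) (hK : 0 ≤ K)
    (hL : ‖L - 1‖ ≤ t * K) (hB : ‖B - 1‖ ≤ t * K) : ‖L * B - 1‖ ≤ (K ^ 2 + 2 * K) * t := by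
  have h1 : L * B - 1 = (L - 1) * (B - 1) + (L - 1) + (B - 1) := by ring
  rw [h1]
  calc ‖(L - 1) * (B - 1) + (L - 1) + (B - 1)‖ ≤ ‖(L - 1) * (B - 1)‖ + ‖L - 1‖ + ‖B - 1‖ :=
        norm_add₃_le
    _ = ‖L - 1‖ * ‖B - 1‖ + ‖L - 1‖ + ‖B - 1‖ := by rw [norm_mul]
    _ ≤ (t * K) * (t * K) + t * K + t * K := by gcongr
    _ = (t * K) * K * t + 2 * K * t := by ring
    _ ≤ (1 * K) * K * t + 2 * K * t := by gcongr
    _ = _ := by ring

theorem ur : T_UR := by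
  refine ⟨KK ^ 2 + 2 * KK + 1, by have := KK_nonneg; positivity, ?_⟩
  intro χ ψ P s hr hη hc hc1 hb1 hb2 hY1 hY2 hs
  have hK := KK_nonneg
  set t : ℝ := (2 : ℝ) ^ (-s.re) with ht
  have ht0 : 0 ≤ t := by positivity
  have ht1 : t ≤ 1 := Real.rpow_le_one_of_one_le_of_nonpos (by norm_num) (by linarith)
  have hU1 : ‖U₁ χ P s - 1‖ ≤ (KK ^ 2 + 2 * KK) * t := by
    unfold U₁
    apply LB_sub_one _ _ t KK ht0 ht1 hK
    · exact L_sub_one χ s.re hs s le_rfl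
    · apply B_sub_one χ P.b₁ hb1 P.Y₁ hY1 s.re hs
      simp
      exact hη
  have hwl : (wl P.r P.τ s).re = 1 / 2 + P.r * (s.re - 1 / 2) := by
    unfold wl
    simp
  have hwl1 : s.re ≤ (wl P.r P.τ s).re := by
    rw [hwl]
    nlinarith
  have hU2 : ‖U₂ ψ P s - 1‖ ≤ (KK ^ 2 + 2 * KK) * t := by
    unfold U₂
    apply LB_sub_one _ _ t KK ht0 ht1 hK
    · exact L_sub_one ψ s.re hs _ hwl1
    · apply B_sub_one ψ P.b₂ hb2 P.Y₂ hY2 s.re hs
      have h2 : (wl P.r P.τ s + 2 * P.r * P.η).re = (wl P.r P.τ s).re + 2 * P.r * P.η := by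
        rw [Complex.add_re]
        congr 1
        have : (2 * (P.r : ℂ) * (P.η : ℂ)) = ((2 * P.r * P.η : ℝ) : ℂ) := by push_cast; ring
        rw [this, Complex.ofReal_re]
      rw [h2]
      have : 0 ≤ 2 * P.r * P.η := by positivity
      linarith
  have hU : U χ ψ P s - 1 = (1 - P.c) * (U₁ χ P s - 1) + P.c * (U₂ ψ P s - 1) := by
    unfold U
    ring
  rw [hU]
  have hn1 : ‖((1 : ℂ) - P.c)‖ = 1 - P.c := by
    rw [show ((1 : ℂ) - P.c) = ((1 - P.c : ℝ) : ℂ) by push_cast; ring, Complex.norm_real,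
      Real.norm_of_nonneg (by linarith)]
  have hn2 : ‖(P.c : ℂ)‖ = P.c := by
    rw [Complex.norm_real, Real.norm_of_nonneg hc]
  calc ‖((1 : ℂ) - P.c) * (U₁ χ P s - 1) + P.c * (U₂ ψ P s - 1)‖
      ≤ ‖((1 : ℂ) - P.c)‖ * ‖U₁ χ P s - 1‖ + ‖(P.c : ℂ)‖ * ‖U₂ ψ P s - 1‖ := by
        refine (norm_add_le _ _).trans ?_
        rw [norm_mul, norm_mul]
    _ ≤ (1 - P.c) * ((KK ^ 2 + 2 * KK) * t) + P.c * ((KK ^ 2 + 2 * KK) * t) := by
        rw [hn1, hn2]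
        exact add_le_add (mul_le_mul_of_nonneg_left hU1 (by linarith))
          (mul_le_mul_of_nonneg_left hU2 hc)
    _ = (KK ^ 2 + 2 * KK) * t := by ring
    _ ≤ (KK ^ 2 + 2 * KK + 1) * t := by nlinarith

end Pool.Agent.H70.PZ
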