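import Pool.Agent.H28.MZ.Targets

/-!
# The zeta function without the Euler factors at `p ∣ q` on the real axis (module ZQ)
-/

set_option autoImplicit false

open Complex Filter Topology

namespace Pool.Agent.H70.PZ

open Pool.Agent.H28.MZ

theorem zq_tsum (q : ℕ) (hq : 1 ≤ q) (x : ℝ) (hx : 1 < x) : zq q x =
    ∑' l : ℕ, if 1 ≤ l ∧ Nat.Coprime l q then (l : ℝ) ^ (-x) else 0 := by
  have : NeZero q := ⟨by omega⟩
  have h1 : (x : ℂ) ≠ 1 := by
    intro h
    have : x = 1 := by exact_mod_cast h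
    linarith
  have h := DirichletCharacter.LFunctionTrivChar_eq_mul_riemannZeta (N := q) h1
  have hre : 1 < (x : ℂ).re := by rw [Complex.ofReal_re]; exact hx
  have hL : DirichletCharacter.LFunctionTrivChar q x =
      LSeries (fun n => (1 : DirichletCharacter ℂ q) n) x :=
    DirichletCharacter.LFunction_eq_LSeries _ hre
  have hsum : LSeriesSummable (fun n => (1 : DirichletCharacter ℂ q) n) (x : ℂ) :=
    DirichletCharacter.LSeriesSummable_of_one_lt_re _ hre
  have h2 : zq q x = (LSeries (fun n => (1 : DirichletCharacter ℂ q) n) (x : ℂ)).re := by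
    unfold zq
    rw [← hL, h, mul_comm]
  rw [h2, LSeries, Complex.re_tsum hsum]
  apply tsum_congr
  intro l
  rcases Nat.eq_zero_or_pos l with rfl | hl
  · rw [LSeries.term_zero]
    simp
  · rw [LSeries.term_of_ne_zero (by omega)]
    by_cases hc : Nat.Coprime l q
    · rw [if_pos ⟨hl, hc⟩, MulChar.one_apply ((ZMod.isUnit_iff_coprime l q).2 hc)]
      have h3 : (l : ℂ) ^ (x : ℂ) = (((l : ℝ) ^ x : ℝ) : ℂ) := by
        rw [Complex.ofReal_cpow (Nat.cast_nonneg l), Complex.ofReal_natCast]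
      rw [h3, Real.rpow_neg (Nat.cast_nonneg l), one_div, ← Complex.ofReal_inv, Complex.ofReal_re]
    · rw [if_neg (fun h => hc h.2)]
      have h4 : (1 : DirichletCharacter ℂ q) (l : ZMod q) = 0 := by
        apply MulChar.map_nonunit
        rw [ZMod.isUnit_iff_coprime]
        exact hc
      rw [h4, zero_div, Complex.zero_re]

theorem summable_terms (q : ℕ) (x : ℝ) (hx : 1 < x) :
    Summable fun l : ℕ => if 1 ≤ l ∧ Nat.Coprime l q then (l : ℝ) ^ (-x) else 0 := by
  refine Summable.of_nonneg_of_le (fun l => ?_) (fun l => ?_) (Real.summable_nat_rpow.2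
    (show -x < -1 by linarith))
  · split_ifs
    · positivity
    · exact le_rfl
  · split_ifs
    · exact le_rfl
    · positivity

theorem zq_ge_one (q : ℕ) (hq : 1 ≤ q) (x : ℝ) (hx : 1 < x) : 1 ≤ zq q x := by
  rw [zq_tsum q hq x hx]
  have h := (summable_terms q x hx).le_tsum 1 (fun l _ => by
    split_ifs
    · positivity
    · exact le_rfl)
  simpa using h

theorem zq_le (q : ℕ) (hq : 1 ≤ q) (x y : ℝ) (hx : 1 < x) (hxy : x ≤ y) :
    zq q y ≤ ∑' l : ℕ, (l : ℝ) ^ (-x) := by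
  rw [zq_tsum q hq y (by linarith)]
  apply Summable.tsum_le_tsum _ (summable_terms q y (by linarith))
    (Real.summable_nat_rpow.2 (show -x < -1 by linarith))
  intro l
  split_ifs with h
  · exact Real.rpow_le_rpow_of_exponent_le (by exact_mod_cast h.1) (by linarith)
  · positivity

theorem prod_pos (q : ℕ) : 0 < ∏ p ∈ q.primeFactors, (1 - (p : ℝ)⁻¹) := by
  apply Finset.prod_pos
  intro p hp
  have h2 : (2 : ℝ) ≤ p := by exact_mod_cast (Nat.prime_of_mem_primeFactors hp).two_le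
  have : (p : ℝ)⁻¹ ≤ 2⁻¹ := by
    apply inv_anti₀ (by norm_num) h2
  linarith [show (2 : ℝ)⁻¹ = 1 / 2 by norm_num]

theorem tendsto_zq (q : ℕ) : Tendsto (fun x : ℝ => (x - 1) * zq q x) (𝓝[≠] 1)
    (𝓝 (∏ p ∈ q.primeFactors, (1 - (p : ℝ)⁻¹))) := by
  have h1 : Tendsto (fun x : ℝ => (x : ℂ)) (𝓝[≠] (1 : ℝ)) (𝓝[≠] (1 : ℂ)) := by
    apply tendsto_nhdsWithin_of_tendsto_nhds_of_eventually_within
    · have : Tendsto (fun x : ℝ => (x : ℂ)) (𝓝 (1 : ℝ)) (𝓝 ((1 : ℝ) : ℂ)) :=
        Complex.continuous_ofReal.tendsto 1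
      rw [Complex.ofReal_one] at this
      exact this.mono_left nhdsWithin_le_nhds
    · filter_upwards [self_mem_nhdsWithin] with x hx h
      apply hx
      have h' : (x : ℂ) = 1 := h
      exact_mod_cast h'
  have h2 : Tendsto (fun x : ℝ => ((x : ℂ) - 1) * riemannZeta (x : ℂ)) (𝓝[≠] (1 : ℝ)) (𝓝 1) :=
    riemannZeta_residue_one.comp h1
  have h3 : Tendsto (fun x : ℝ => ∏ p ∈ q.primeFactors, (1 - (p : ℂ) ^ (-(x : ℂ))))
      (𝓝[≠] (1 : ℝ)) (𝓝 (∏ p ∈ q.primeFactors, (1 - (p : ℂ) ^ (-((1 : ℝ) : ℂ))))) := by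
    refine Tendsto.mono_left ?_ nhdsWithin_le_nhds
    apply tendsto_finsetProd
    intro p hp
    have hp0 : (p : ℂ) ≠ 0 := by
      exact_mod_cast (Nat.prime_of_mem_primeFactors hp).ne_zero
    have hcont : Continuous fun x : ℝ => 1 - (p : ℂ) ^ (-(x : ℂ)) := by
      have : Continuous fun x : ℝ => (p : ℂ) ^ (-(x : ℂ)) :=
        Continuous.const_cpow (by fun_prop) (Or.inl hp0)
      exact continuous_const.sub this
    exact hcont.tendsto 1
  have h4 := (Complex.continuous_re.tendsto _).comp (h2.mul h3)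
  have h5 : (1 * ∏ p ∈ q.primeFactors, (1 - (p : ℂ) ^ (-((1 : ℝ) : ℂ)))).re =
      ∏ p ∈ q.primeFactors, (1 - (p : ℝ)⁻¹) := by
    have : (1 * ∏ p ∈ q.primeFactors, (1 - (p : ℂ) ^ (-((1 : ℝ) : ℂ)))) =
        ((∏ p ∈ q.primeFactors, (1 - (p : ℝ)⁻¹) : ℝ) : ℂ) := by
      push_cast
      rw [one_mul]
      apply Finset.prod_congr rfl
      intro p _
      rw [Complex.cpow_neg_one]
    rw [this, Complex.ofReal_re]
  rw [h5] at h4
  refine h4.congr (fun x => ?_)
  simp only [Function.comp]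
  unfold zq
  rw [mul_assoc, show ((x : ℂ) - 1) = ((x - 1 : ℝ) : ℂ) by push_cast; ring, Complex.re_ofReal_mul]

/-- Module ZQ. -/
theorem zq_t : T_ZQ := by
  intro q hq
  set c₀ : ℝ := ∏ p ∈ q.primeFactors, (1 - (p : ℝ)⁻¹) with hc₀
  have hc : 0 < c₀ := prod_pos q
  have hev : ∀ᶠ x : ℝ in 𝓝[≠] 1, (x - 1) * zq q x ∈ Set.Ioo (c₀ / 2) (2 * c₀) :=
    (tendsto_zq q).eventually (Ioo_mem_nhds (by linarith) (by linarith))
  rw [eventually_nhdsWithin_iff, Metric.eventually_nhds_iff] at hev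
  obtain ⟨ε, hε, hE⟩ := hev
  have hE' : ∀ x : ℝ, |x - 1| < ε → x ≠ 1 → c₀ / 2 < (x - 1) * zq q x ∧
      (x - 1) * zq q x < 2 * c₀ := by
    intro x hx hx1
    exact hE (by rw [Real.dist_eq]; exact hx) hx1
  refine ⟨⟨1 - ε, by linarith, ?_⟩, ?_, fun x hx => zq_tsum q hq x hx⟩
  · intro x hx hx1
    have h := (hE' x (by rw [abs_lt]; constructor <;> linarith) hx1.ne).1
    by_contra hcon
    push Not at hcon
    nlinarith
  · set M : ℝ := ∑' l : ℕ, (l : ℝ) ^ (-(1 + ε / 2)) with hM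
    refine ⟨min (c₀ / 2) (ε / 2), max (2 * c₀) M, lt_min (by linarith) (by linarith),
      lt_max_of_lt_left (by linarith), ?_⟩
    intro x hx hx2
    have hx0 : 0 < x - 1 := by linarith
    by_cases hnear : x - 1 < ε
    · obtain ⟨h1, h2⟩ := hE' x (by rw [abs_lt]; constructor <;> linarith) (by linarith)
      constructor
      · rw [div_le_iff₀ hx0]
        calc min (c₀ / 2) (ε / 2) ≤ c₀ / 2 := min_le_left _ _
          _ ≤ zq q x * (x - 1) := by linarith
      · rw [le_div_iff₀ hx0]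
        calc zq q x * (x - 1) ≤ 2 * c₀ := by linarith
          _ ≤ _ := le_max_left _ _
    · push Not at hnear
      have h1 := zq_ge_one q hq x hx
      have h2 : zq q x ≤ M := zq_le q hq (1 + ε / 2) x (by linarith) (by linarith)
      constructor
      · rw [div_le_iff₀ hx0]
        calc min (c₀ / 2) (ε / 2) ≤ ε / 2 := min_le_right _ _
          _ ≤ 1 * (x - 1) := by linarith
          _ ≤ zq q x * (x - 1) := mul_le_mul_of_nonneg_right h1 hx0.le
      · rw [le_div_iff₀ hx0]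
        calc zq q x * (x - 1) ≤ zq q x * 1 :=
              mul_le_mul_of_nonneg_left (by linarith) (by linarith)
          _ = zq q x := mul_one _
          _ ≤ M := h2
          _ ≤ _ := le_max_right _ _

end Pool.Agent.H70.PZ
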